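import Mathlib

/-!
# Arithmetic check for at most 49 vertices
-/

set_option autoImplicit false

namespace Pool.Agent.E8helper57.JN

/-- Newton iteration for the square root (no correctness needed) -/
def newt : ℕ → ℕ → ℕ → ℕ
  | 0, _, x => x
  | k + 1, m, x => if ((x + m / x) / 2) < x then newt k m ((x + m / x) / 2) else x

/-- the condition on `P` -/
def okP (v e N P : ℕ) : Bool :=
  P == 0 || Nat.ble (N * (N - 1)) P ||
    !(decide (((3 * (N : ℤ) * N * (N - 1) * (N - 1) * (N - 1))) ∣
      (((v : ℤ) - 2) * P * P * (3 * e * (N - 1) - 2 * P))))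

/-- the check of one pair `(v, e)` -/
def ok (v e : ℕ) : Bool :=
  let N := v * (v - 1) / 2
  let m := (N - 1) * (e * (N - e))
  if (2 * e * (e - 1)) % (v + 1) = 0 then
    let s := newt 40 m (m + 1)
    if s * s = m then okP v e N (e * (N - 1) + s) && okP v e N (e * (N - 1) - s)
    else Nat.blt (s * s) m && Nat.blt m ((s + 1) * (s + 1))
  else true

/-- all `e` with `0 < e ≤ k` -/
def loopE (v : ℕ) : ℕ → Bool
  | 0 => true
  | k + 1 => ok v (k + 1) && loopE v k

/-- all `v` with `3 ≤ v < k + 3` -/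
def loopV : ℕ → Bool
  | 0 => true
  | k + 1 => loopE (k + 3) ((k + 3) * (k + 2) / 2 - 1) && loopV k

theorem loopV_true : loopV 47 = true := by decide +kernel

theorem loopE_spec {v : ℕ} : ∀ {k : ℕ}, loopE v k = true → ∀ e, 0 < e → e ≤ k → ok v e = true := by
  intro k
  induction k with
  | zero => intro _ e h1 h2; omega
  | succ k ih =>
    intro h e h1 h2
    rw [loopE, Bool.and_eq_true] at h
    rcases Nat.lt_or_ge k e with h3 | h3
    · have : e = k + 1 := by omega
      rw [this]
      exact h.1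
    · exact ih h.2 e h1 h3

theorem loopV_spec : ∀ {k : ℕ}, loopV k = true → ∀ v, 3 ≤ v → v < k + 3 →
    ∀ e, 0 < e → e < v * (v - 1) / 2 → ok v e = true := by
  intro k
  induction k with
  | zero => intro _ v h1 h2; omega
  | succ k ih =>
    intro h v h1 h2 e h3 h4
    rw [loopV, Bool.and_eq_true] at h
    rcases Nat.lt_or_ge v (k + 3) with h5 | h5
    · exact ih h.2 v h1 h5 e h3 h4
    · have hv : v = k + 3 := by omega
      subst hv
      refine loopE_spec h.1 e h3 ?_
      have : (k + 3) * (k + 3 - 1) / 2 = (k + 3) * (k + 2) / 2 := rfl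
      omega

/-- the arithmetic statement -/
theorem arith {v e r t : ℕ} (hv : 3 ≤ v) (hv2 : v < 50) (he : 0 < e)
    (heN : e < v * (v - 1) / 2) (hdiv : (2 * e * (e - 1)) % (v + 1) = 0)
    (hr : r * r = (v * (v - 1) / 2 - 1) * (e * (v * (v - 1) / 2 - e)))
    (P : ℕ) (hP0 : 0 < P) (hP1 : P < v * (v - 1) / 2 * (v * (v - 1) / 2 - 1))
    (hP : P = e * (v * (v - 1) / 2 - 1) + r ∨ P = e * (v * (v - 1) / 2 - 1) - r)
    (hT : (3 * ((v * (v - 1) / 2 : ℕ) : ℤ) * (v * (v - 1) / 2 : ℕ) *
      (((v * (v - 1) / 2 : ℕ) : ℤ) - 1) * (((v * (v - 1) / 2 : ℕ) : ℤ) - 1) *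
      (((v * (v - 1) / 2 : ℕ) : ℤ) - 1)) * t =
      ((v : ℤ) - 2) * P * P * (3 * e * (((v * (v - 1) / 2 : ℕ) : ℤ) - 1) - 2 * P)) : False := by
  have h := loopV_spec loopV_true v hv (by omega) e he heN
  unfold ok at h
  simp only [hdiv, if_true] at h
  generalize v * (v - 1) / 2 = N at *
  generalize newt 40 ((N - 1) * (e * (N - e))) ((N - 1) * (e * (N - e)) + 1) = s at h
  have key : okP v e N P = false := by
    unfold okP
    have h1 : (P == 0) = false := by simpa using hP0.ne'
    have h2 : Nat.ble (N * (N - 1)) P = false := by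
      rw [Bool.eq_false_iff]
      intro h2
      have := Nat.le_of_ble_eq_true h2
      omega
    have h3 : decide ((3 * (N : ℤ) * N * (N - 1) * (N - 1) * (N - 1)) ∣
      (((v : ℤ) - 2) * P * P * (3 * e * (N - 1) - 2 * P))) = true := by
      rw [decide_eq_true_eq]
      exact ⟨t, hT.symm⟩
    rw [h1, h2, h3]
    rfl
  by_cases hs : s * s = (N - 1) * (e * (N - e))
  · rw [if_pos hs, Bool.and_eq_true] at h
    have hrs : r = s := by
      rw [← hr] at hs
      nlinarith [Nat.mul_self_inj.1 hs]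
    rcases hP with hP | hP
    · rw [← hrs, ← hP, key] at h
      exact absurd h.1 (by simp)
    · rw [← hrs, ← hP, key] at h
      exact absurd h.2 (by simp)
  · rw [if_neg hs, Bool.and_eq_true] at h
    have h1 : s * s < (N - 1) * (e * (N - e)) := by simpa using h.1
    have h2 : (N - 1) * (e * (N - e)) < (s + 1) * (s + 1) := by simpa using h.2
    rw [← hr] at h1 h2
    have h3 := Nat.mul_self_lt_mul_self_iff.1 h1
    have h4 := Nat.mul_self_lt_mul_self_iff.1 h2
    omega

end Pool.Agent.E8helper57.JN
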