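import Pool.Agent.E8helper57.JN.Fin
import Pool.Agent.E8helper57.JN.Chk

/-!
# Centred subgraph statistics: exceptional graphs have at least 50 vertices
-/

set_option autoImplicit false

open Finset Classical

namespace Pool.Agent.E8helper57.JN

variable {v : ℕ} (F : SimpleGraph (Fin v)) (p : ℝ)

lemma T6_six : ∃ t : ℕ, T6 F = 6 * t := by
  obtain ⟨f, hf⟩ : ∃ f : Fin v → Fin v → Fin v → ℕ, f = fun a b c =>
    if F.Adj a b ∧ F.Adj b c ∧ F.Adj a c then 1 else 0 := ⟨_, rfl⟩
  obtain ⟨G, hG⟩ : ∃ G : Fin v → Fin v → Fin v → ℕ, G = fun (a b c : Fin v) =>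
    if a.val < b.val ∧ b.val < c.val then f a b c else 0 := ⟨_, rfl⟩
  have e : ∀ a b c, f a b c = G a b c + G a c b + G b a c + G b c a + G c a b + G c b a := by
    intro a b c
    have k1 : f a c b = f a b c := by
      have h1 := F.adj_comm b c
      simp only [hf]
      split_ifs <;> tauto
    have k2 : f b a c = f a b c := by
      have h1 := F.adj_comm a b
      simp only [hf]
      split_ifs <;> tauto
    have k3 : f b c a = f a b c := by
      have h1 := F.adj_comm a b
      have h2 := F.adj_comm a c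
      simp only [hf]
      split_ifs <;> tauto
    have k4 : f c a b = f a b c := by
      have h1 := F.adj_comm a c
      have h2 := F.adj_comm b c
      simp only [hf]
      split_ifs <;> tauto
    have k5 : f c b a = f a b c := by
      have h1 := F.adj_comm a c
      have h2 := F.adj_comm b c
      have h3 := F.adj_comm a b
      simp only [hf]
      split_ifs <;> tauto
    simp only [hG]
    rw [k1, k2, k3, k4, k5]
    by_cases h : F.Adj a b ∧ F.Adj b c ∧ F.Adj a c
    · have w1 : (a : ℕ) ≠ b := fun hh => h.1.ne (Fin.ext hh)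
      have w2 : (b : ℕ) ≠ c := fun hh => h.2.1.ne (Fin.ext hh)
      have w3 : (a : ℕ) ≠ c := fun hh => h.2.2.ne (Fin.ext hh)
      have w4 : f a b c = 1 := by
        simp only [hf]
        rw [if_pos h]
      rw [w4]
      split_ifs <;> omega
    · have w4 : f a b c = 0 := by
        simp only [hf]
        rw [if_neg h]
      rw [w4]
      simp
  refine ⟨∑ a, ∑ b, ∑ c, G a b c, ?_⟩
  have g1 : ∑ a, ∑ b, ∑ c, G a c b = ∑ a, ∑ b, ∑ c, G a b c :=
    sum_congr rfl fun a _ => sum_comm
  have g2 : ∑ a, ∑ b, ∑ c, G b a c = ∑ a, ∑ b, ∑ c, G a b c := sum_comm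
  have g3 : ∑ a, ∑ b, ∑ c, G b c a = ∑ a, ∑ b, ∑ c, G a b c := by
    rw [sum_comm]
    exact sum_congr rfl fun a _ => sum_comm
  have g4 : ∑ a, ∑ b, ∑ c, G c a b = ∑ a, ∑ b, ∑ c, G a b c := by
    rw [sum_congr rfl fun a _ => sum_comm]
    exact sum_comm
  have g5 : ∑ a, ∑ b, ∑ c, G c b a = ∑ a, ∑ b, ∑ c, G a b c := by
    rw [sum_congr rfl fun a _ => sum_comm, sum_comm]
    exact sum_congr rfl fun a _ => sum_comm
  have hsum : ∑ a, ∑ b, ∑ c, f a b c = 6 * ∑ a, ∑ b, ∑ c, G a b c := by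
    simp only [e, sum_add_distrib]
    rw [g1, g2, g3, g4, g5]
    ring
  have hT : T6 F = ((∑ a, ∑ b, ∑ c, f a b c : ℕ) : ℝ) := by
    unfold T6 X
    push_cast
    refine sum_congr rfl fun a _ => sum_congr rfl fun b _ => sum_congr rfl fun c _ => ?_
    simp only [hf]
    by_cases h1 : F.Adj a b <;> by_cases h2 : F.Adj b c <;> by_cases h3 : F.Adj a c <;>
      simp [h1, h2, h3]
  rw [hT, hsum]
  push_cast
  ring

/-- the number of triangles -/
theorem algebra_T {n E D T p : ℝ}
    (h1 : (D - 2 * p * (n - 1) * E + p ^ 2 * (n - 1) ^ 2 * n) -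
      ((1 - 2 * p) * E + p ^ 2 * (n ^ 2 - n)) = 0)
    (h3 : T - 3 * p * (D - E) + 3 * p ^ 2 * ((n - 2) * E) - p ^ 3 * ((n - 2) * (n ^ 2 - n)) = 0) :
    T = (n - 2) * (3 * p ^ 2 * E - 2 * p ^ 3 * (n ^ 2 - n)) := by
  have hD : D - E = (n - 2) * (2 * p * E - p ^ 2 * (n ^ 2 - n)) := by
    linear_combination h1
  linear_combination h3 + 3 * p * hD

theorem fifty (hv : 3 ≤ v) (hp0 : 0 < p) (hp1 : p < 1) (h1 : Sm F p 3 P3 = 0)
    (h2 : Sm F p 4 M2 = 0) (h3 : Sm F p 3 ⊤ = 0) : 50 ≤ v := by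
  by_contra hlt
  push Not at hlt
  obtain ⟨-, c2, ⟨r, hr⟩, c4⟩ := concl F p hv hp0 hp1 h1 h2 h3
  have hv' : (3 : ℝ) ≤ v := by exact_mod_cast hv
  rw [P3_eq, sum_R, sum_Y2] at h1
  rw [M2_eq, sum_Y, sum_R, sum_Y2] at h2
  rw [K3_eq, sum_T] at h3
  obtain ⟨a1, a2, -⟩ := algebra hv' hp0 hp1 h1 h2 h3
  have hT := algebra_T h1 h3
  obtain ⟨t, ht⟩ := T6_six F
  have hE := E2_eq F
  generalize hee : F.edgeFinset.card = e at *
  have hN2 : v.choose 2 = v * (v - 1) / 2 := Nat.choose_two_right v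
  have hM : (v : ℝ) ^ 2 - v = 2 * (v.choose 2 : ℕ) := by
    rw [Nat.cast_choose_two]
    ring
  have heN : e ≤ v.choose 2 := by
    have := F.card_edgeFinset_le_card_choose_two
    rw [Fintype.card_fin, hee] at this
    exact this
  have hdiv : (2 * e * (e - 1)) % (v + 1) = 0 := by
    have heven : Even (∑ b, F.degree b * (F.degree b - 1)) := by
      refine Finset.even_sum _ fun b _ => ?_
      exact Nat.even_mul_pred_self _
    obtain ⟨c, hc⟩ := heven
    rw [hc] at c2
    apply Nat.mod_eq_zero_of_dvd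
    refine ⟨c, ?_⟩
    have : 2 * (2 * e * (e - 1)) = 2 * ((v + 1) * c) := by
      calc 2 * (2 * e * (e - 1)) = 4 * (e * (e - 1)) := by ring
        _ = (v + 1) * (c + c) := c2.symm
        _ = 2 * ((v + 1) * c) := by ring
    omega
  rw [hM] at a2 hT
  rw [hE] at a1 a2 hT
  rw [ht] at hT
  have he0 : 0 < e := by
    rcases Nat.eq_zero_or_pos e with h0 | h0
    · rw [h0] at a1
      norm_num at a1
    · exact h0
  have heN' : e < v.choose 2 := by
    rcases heN.eq_or_lt with h0 | h0
    · rw [← h0] at a2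
      norm_num at a2
    · exact h0
  have hN3 : (3 : ℝ) ≤ (v.choose 2 : ℕ) := by nlinarith
  have hN3' : 3 ≤ v.choose 2 := by exact_mod_cast hN3
  have hchk := arith hv hlt he0 (by rw [← hN2]; exact heN') hdiv (r := r) (t := t)
    (by rw [← hN2]; exact hr.symm)
  rw [← hN2] at hchk
  generalize v.choose 2 = N at *
  -- the two signs
  have hsq : (((N : ℝ) - 1) * (N * p - e)) ^ 2 = (r : ℝ) ^ 2 := by
    have hr' : ((N : ℝ) - 1) * (e * (N - e)) = r * r := by
      have := congrArg (Nat.cast : ℕ → ℝ) hr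
      push_cast at this
      rw [Nat.cast_sub (by omega : 1 ≤ N), Nat.cast_sub heN] at this
      push_cast at this
      exact this
    rw [sq (r : ℝ), ← hr']
    linear_combination ((N : ℝ) - 1) * c4
  have hNp : ∀ P : ℕ, (P : ℝ) = N * (N - 1) * p →
      (P = e * (N - 1) + r ∨ P = e * (N - 1) - r) → False := by
    intro P hP hor
    have hN1 : (0 : ℝ) < (N : ℝ) - 1 := by linarith
    have hP0 : 0 < P := by
      have : (0 : ℝ) < P := by rw [hP]; positivity
      exact_mod_cast this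
    have hP1 : P < N * (N - 1) := by
      have : (P : ℝ) < ((N * (N - 1) : ℕ) : ℝ) := by
        rw [hP]
        push_cast
        rw [Nat.cast_sub (by omega : 1 ≤ N)]
        push_cast
        have : (0 : ℝ) < N * (N - 1) := by positivity
        nlinarith
      exact_mod_cast this
    refine hchk P hP0 hP1 hor ?_
    have h5 : ((3 * (N : ℝ) * N * (N - 1) * (N - 1) * (N - 1)) * t =
        ((v : ℝ) - 2) * P * P * (3 * e * (N - 1) - 2 * P)) := by
      rw [hP]
      linear_combination ((N : ℝ) * N * (N - 1) * (N - 1) * (N - 1)) / 2 * hT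
    exact_mod_cast h5
  rcases sq_eq_sq_iff_eq_or_eq_neg.1 hsq with h | h
  · refine hNp (e * (N - 1) + r) ?_ (Or.inl rfl)
    push_cast
    rw [Nat.cast_sub (by omega : 1 ≤ N)]
    push_cast
    linear_combination -h
  · have hle : r ≤ e * (N - 1) := by
      have : (r : ℝ) ≤ ((e * (N - 1) : ℕ) : ℝ) := by
        push_cast
        rw [Nat.cast_sub (by omega : 1 ≤ N)]
        push_cast
        have : (0 : ℝ) ≤ N * (N - 1) * p := by
          have : (0 : ℝ) ≤ (N : ℝ) - 1 := by linarith
          positivity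
        nlinarith
      exact_mod_cast this
    refine hNp (e * (N - 1) - r) ?_ (Or.inr rfl)
    rw [Nat.cast_sub hle]
    push_cast
    rw [Nat.cast_sub (by omega : 1 ≤ N)]
    push_cast
    linear_combination -h

end Pool.Agent.E8helper57.JN
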