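import Pool.Agent.E8helper57.JN.Sums

/-!
# Centred subgraph statistics: sums over embeddings
-/

set_option autoImplicit false

open Finset Classical

namespace Pool.Agent.E8helper57.JN

variable {v : ℕ}

noncomputable section

/-- the centred statistic, in the form of the frozen statements -/
def Sm (F : SimpleGraph (Fin v)) (p : ℝ) (k : ℕ) (H : SimpleGraph (Fin k)) : ℝ :=
  ∑ φ : Fin k ↪ Fin v,
    ∏ i : Fin k, ∏ j : Fin k,
      (if i < j ∧ H.Adj i j then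
        ((if F.Adj (φ i) (φ j) then (1 : ℝ) else 0) - p)
      else 1)

/-- the path on three vertices with center `1` -/
def P3 : SimpleGraph (Fin 3) where
  Adj i j := (i = 1 ∧ j ≠ 1) ∨ (j = 1 ∧ i ≠ 1)
  symm := ⟨fun i j h => h.symm⟩
  loopless := ⟨fun i h => by rcases h with h | h <;> exact h.2 h.1⟩

/-- two disjoint edges -/
def M2 : SimpleGraph (Fin 4) where
  Adj i j := (i = 0 ∧ j = 1) ∨ (i = 1 ∧ j = 0) ∨ (i = 2 ∧ j = 3) ∨ (i = 3 ∧ j = 2)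
  symm := ⟨fun i j h => by tauto⟩
  loopless := ⟨fun i h => by
    rcases h with h | h | h | h <;> exact absurd (h.1.symm.trans h.2) (by decide)⟩

/-- embeddings of three points -/
def emb3 : (Fin 3 ↪ Fin v) ≃ {t : Fin v × Fin v × Fin v //
    t.1 ≠ t.2.1 ∧ t.1 ≠ t.2.2 ∧ t.2.1 ≠ t.2.2} where
  toFun φ := ⟨(φ 0, φ 1, φ 2), by
    refine ⟨?_, ?_, ?_⟩ <;> exact fun h => absurd (φ.injective h) (by decide)⟩
  invFun t := ⟨![t.1.1, t.1.2.1, t.1.2.2], by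
    obtain ⟨⟨a, b, c⟩, h1, h2, h3⟩ := t
    dsimp only at h1 h2 h3
    have k1 := h1.symm
    have k2 := h2.symm
    have k3 := h3.symm
    intro i j h
    fin_cases i <;> fin_cases j <;> simp_all⟩
  left_inv φ := by
    ext i
    fin_cases i <;> rfl
  right_inv t := rfl

/-- embeddings of four points -/
def emb4 : (Fin 4 ↪ Fin v) ≃ {t : Fin v × Fin v × Fin v × Fin v //
    t.1 ≠ t.2.1 ∧ t.1 ≠ t.2.2.1 ∧ t.1 ≠ t.2.2.2 ∧ t.2.1 ≠ t.2.2.1 ∧ t.2.1 ≠ t.2.2.2 ∧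
      t.2.2.1 ≠ t.2.2.2} where
  toFun φ := ⟨(φ 0, φ 1, φ 2, φ 3), by
    refine ⟨?_, ?_, ?_, ?_, ?_, ?_⟩ <;> exact fun h => absurd (φ.injective h) (by decide)⟩
  invFun t := ⟨![t.1.1, t.1.2.1, t.1.2.2.1, t.1.2.2.2], by
    obtain ⟨⟨a, b, c, d⟩, h1, h2, h3, h4, h5, h6⟩ := t
    dsimp only at h1 h2 h3 h4 h5 h6
    have k1 := h1.symm
    have k2 := h2.symm
    have k3 := h3.symm
    have k4 := h4.symm
    have k5 := h5.symm
    have k6 := h6.symm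
    intro i j h
    fin_cases i <;> fin_cases j <;> simp_all⟩
  left_inv φ := by
    ext i
    fin_cases i <;> rfl
  right_inv t := rfl

lemma sum_emb3 (g : Fin v → Fin v → Fin v → ℝ) :
    ∑ φ : Fin 3 ↪ Fin v, g (φ 0) (φ 1) (φ 2) =
      ∑ a, ∑ b, ∑ c, if a ≠ b ∧ a ≠ c ∧ b ≠ c then g a b c else 0 := by
  refine (Fintype.sum_equiv emb3 (fun φ => g (φ 0) (φ 1) (φ 2))
    (fun t => g t.1.1 t.1.2.1 t.1.2.2) (fun φ => rfl)).trans ?_
  rw [← Finset.sum_subtype (s := Finset.univ.filter fun t : Fin v × Fin v × Fin v =>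
    t.1 ≠ t.2.1 ∧ t.1 ≠ t.2.2 ∧ t.2.1 ≠ t.2.2) (by simp)
    (fun t => g t.1 t.2.1 t.2.2)]
  rw [Finset.sum_filter, Fintype.sum_prod_type]
  refine sum_congr rfl fun a _ => ?_
  rw [Fintype.sum_prod_type]

lemma sum_emb4 (g : Fin v → Fin v → Fin v → Fin v → ℝ) :
    ∑ φ : Fin 4 ↪ Fin v, g (φ 0) (φ 1) (φ 2) (φ 3) =
      ∑ a, ∑ b, ∑ c, ∑ d, if a ≠ b ∧ a ≠ c ∧ a ≠ d ∧ b ≠ c ∧ b ≠ d ∧ c ≠ d then g a b c d else 0 := by
  refine (Fintype.sum_equiv emb4 (fun φ => g (φ 0) (φ 1) (φ 2) (φ 3))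
    (fun t => g t.1.1 t.1.2.1 t.1.2.2.1 t.1.2.2.2) (fun φ => rfl)).trans ?_
  rw [← Finset.sum_subtype (s := Finset.univ.filter fun t : Fin v × Fin v × Fin v × Fin v =>
    t.1 ≠ t.2.1 ∧ t.1 ≠ t.2.2.1 ∧ t.1 ≠ t.2.2.2 ∧ t.2.1 ≠ t.2.2.1 ∧ t.2.1 ≠ t.2.2.2 ∧
      t.2.2.1 ≠ t.2.2.2) (by simp)
    (fun t => g t.1 t.2.1 t.2.2.1 t.2.2.2)]
  rw [Finset.sum_filter, Fintype.sum_prod_type]
  refine sum_congr rfl fun a _ => ?_
  rw [Fintype.sum_prod_type]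
  refine sum_congr rfl fun b _ => ?_
  rw [Fintype.sum_prod_type]

variable (F : SimpleGraph (Fin v)) (p : ℝ)

lemma Y_ne {a b : Fin v} (h : a ≠ b) : Y F p a b = (if F.Adj a b then (1 : ℝ) else 0) - p := by
  unfold Y X
  rw [if_neg h]

lemma Sm_P3 : Sm F p 3 P3 = ∑ φ : Fin 3 ↪ Fin v, Y F p (φ 0) (φ 1) * Y F p (φ 1) (φ 2) := by
  unfold Sm
  refine sum_congr rfl fun φ _ => ?_
  have h01 : φ 0 ≠ φ 1 := fun h => absurd (φ.injective h) (by decide)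
  have h12 : φ 1 ≠ φ 2 := fun h => absurd (φ.injective h) (by decide)
  rw [Y_ne F p h01, Y_ne F p h12]
  simp [Fin.prod_univ_three, P3]

lemma Sm_K3 : Sm F p 3 ⊤ =
    ∑ φ : Fin 3 ↪ Fin v, Y F p (φ 0) (φ 1) * Y F p (φ 1) (φ 2) * Y F p (φ 0) (φ 2) := by
  unfold Sm
  refine sum_congr rfl fun φ _ => ?_
  have h01 : φ 0 ≠ φ 1 := fun h => absurd (φ.injective h) (by decide)
  have h12 : φ 1 ≠ φ 2 := fun h => absurd (φ.injective h) (by decide)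
  have h02 : φ 0 ≠ φ 2 := fun h => absurd (φ.injective h) (by decide)
  rw [Y_ne F p h01, Y_ne F p h12, Y_ne F p h02]
  simp [Fin.prod_univ_three]
  ring

lemma Sm_M2 : Sm F p 4 M2 = ∑ φ : Fin 4 ↪ Fin v, Y F p (φ 0) (φ 1) * Y F p (φ 2) (φ 3) := by
  unfold Sm
  refine sum_congr rfl fun φ _ => ?_
  have h01 : φ 0 ≠ φ 1 := fun h => absurd (φ.injective h) (by decide)
  have h23 : φ 2 ≠ φ 3 := fun h => absurd (φ.injective h) (by decide)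
  rw [Y_ne F p h01, Y_ne F p h23]
  simp [Fin.prod_univ_four, M2]

end

end Pool.Agent.E8helper57.JN
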