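import Pool.Agent.E8helper57.JN.Main

/-!
# Centred subgraph statistics: exceptional pairs have rational `p`
-/

set_option autoImplicit false

open Finset Classical

namespace Pool.Agent.E8helper57.JN

variable {v : ℕ} (F : SimpleGraph (Fin v)) (p : ℝ)

lemma sum_X (a : Fin v) : ∑ b, X F a b = (F.degree a : ℝ) := by
  unfold X
  rw [Finset.sum_boole, ← SimpleGraph.card_neighborFinset_eq_degree,
    SimpleGraph.neighborFinset_eq_filter]

lemma sum_X' (a : Fin v) : ∑ b, X F b a = (F.degree a : ℝ) := by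
  rw [← sum_X F a]
  exact sum_congr rfl fun b _ => X_symm F b a

lemma E2_eq : E2 F = 2 * (F.edgeFinset.card : ℝ) := by
  unfold E2
  rw [sum_congr rfl fun a _ => sum_X F a]
  exact_mod_cast F.sum_degrees_eq_twice_card_edges

lemma D2_eq : D2 F = ∑ b, (F.degree b : ℝ) ^ 2 := by
  unfold D2
  exact sum_congr rfl fun b _ => by rw [sum_X' F b]

lemma T6_nat : ∃ t : ℕ, T6 F = t := by
  refine ⟨∑ a, ∑ b, ∑ c, (if F.Adj a b then 1 else 0) * (if F.Adj b c then 1 else 0) *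
    (if F.Adj a c then 1 else 0), ?_⟩
  unfold T6 X
  push_cast
  rfl

/-- what is proved for a graph `F` and a real `p` with three vanishing statistics -/
def Concl (F : SimpleGraph (Fin v)) (p : ℝ) : Prop :=
  (∃ q : ℚ, p = q) ∧
  (v + 1) * ∑ b, F.degree b * (F.degree b - 1) = 4 * (F.edgeFinset.card *
    (F.edgeFinset.card - 1)) ∧
  IsSquare ((v.choose 2 - 1) * (F.edgeFinset.card * (v.choose 2 - F.edgeFinset.card))) ∧
  (((v.choose 2 : ℕ) : ℝ) * p - F.edgeFinset.card) ^ 2 * ((v.choose 2 : ℕ) - 1) =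
    F.edgeFinset.card * ((v.choose 2 : ℕ) - F.edgeFinset.card)

theorem concl (hv : 3 ≤ v) (hp0 : 0 < p) (hp1 : p < 1) (h1 : Sm F p 3 P3 = 0)
    (h2 : Sm F p 4 M2 = 0) (h3 : Sm F p 3 ⊤ = 0) : Concl F p := by
  have hv' : (3 : ℝ) ≤ v := by exact_mod_cast hv
  rw [P3_eq, sum_R, sum_Y2] at h1
  rw [M2_eq, sum_Y, sum_R, sum_Y2] at h2
  rw [K3_eq, sum_T] at h3
  obtain ⟨a1, a2, a3, a4, a5⟩ := algebra hv' hp0 hp1 h1 h2 h3
  obtain ⟨t, ht⟩ := T6_nat F
  obtain ⟨e, he⟩ : ∃ e, e = F.edgeFinset.card := ⟨_, rfl⟩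
  obtain ⟨N, hN⟩ : ∃ N, N = v.choose 2 := ⟨_, rfl⟩
  have hM : (v : ℝ) ^ 2 - v = 2 * N := by
    rw [hN, Nat.cast_choose_two]
    ring
  have hE := E2_eq F
  rw [← he] at hE
  have heN : e ≤ N := by
    have := F.card_edgeFinset_le_card_choose_two
    rw [Fintype.card_fin] at this
    rw [he, hN]
    exact this
  have hN3 : 3 ≤ N := by
    have : (3 : ℝ) ≤ N := by nlinarith
    exact_mod_cast this
  have hD := D2_eq F
  rw [hM, hE] at a2 a3 a5
  rw [hE] at a1 a4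
  rw [ht] at a3
  have h16 : (4 * (2 * (e : ℝ)) * (2 * N - 2 * e)) ≠ 0 := by
    refine mul_ne_zero (mul_ne_zero (by norm_num) a1) a2
  have hq : p = (((2 * (e : ℚ)) ^ 2 * (2 * e - 2) - t * (2 * N) * (v + 1)) /
      (4 * (2 * (e : ℚ)) * (2 * N - 2 * e)) : ℚ) := by
    push_cast
    rw [eq_div_iff h16]
    exact a3
  have hsq : (((N : ℝ) - 1) * (N * p - e)) ^ 2 = ((N - 1) * (e * (N - e)) : ℝ) := by
    linear_combination a5 / 16
  refine ⟨⟨_, hq⟩, ?_, ?_, ?_⟩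
  · have e1 : ((∑ b, F.degree b * (F.degree b - 1) : ℕ) : ℝ) = D2 F - E2 F := by
      have e2 : E2 F = ∑ b, (F.degree b : ℝ) := by
        unfold E2
        exact sum_congr rfl fun a _ => sum_X F a
      rw [hD, e2, ← sum_sub_distrib]
      push_cast
      refine sum_congr rfl fun b _ => ?_
      rcases Nat.eq_zero_or_pos (F.degree b) with h0 | h0
      · rw [h0]
        norm_num
      · rw [Nat.cast_sub h0]
        push_cast
        ring
    have he1 : 1 ≤ e := by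
      rcases Nat.eq_zero_or_pos e with h0 | h0
      · rw [h0] at a1
        norm_num at a1
      · exact h0
    rw [← he]
    have e3 : (((v + 1) * ∑ b, F.degree b * (F.degree b - 1) : ℕ) : ℝ) =
        ((4 * (e * (e - 1)) : ℕ) : ℝ) := by
      rw [Nat.cast_mul, e1, hE]
      push_cast
      rw [Nat.cast_sub he1]
      push_cast
      linear_combination a4
    exact_mod_cast e3
  · rw [← he, ← hN, ← Rat.isSquare_natCast_iff]
    obtain ⟨q, hq'⟩ : ∃ q : ℚ, p = q := ⟨_, hq⟩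
    refine ⟨((N : ℚ) - 1) * (N * q - e), ?_⟩
    have h5 : (((N : ℚ) - 1) * (N * q - e)) ^ 2 = ((N - 1) * (e * (N - e)) : ℚ) := by
      rw [hq'] at hsq
      exact_mod_cast hsq
    rw [← sq, h5]
    push_cast
    rw [Nat.cast_sub (by omega : 1 ≤ N), Nat.cast_sub heN]
    push_cast
    ring
  · rw [← he, ← hN]
    have hN1 : ((N : ℝ) - 1) ≠ 0 := by
      have : (3 : ℝ) ≤ N := by exact_mod_cast hN3
      intro h
      linarith
    apply mul_left_cancel₀ hN1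
    linear_combination hsq

/-- exceptional pairs, as in the frozen statements -/
def Exceptional (F : SimpleGraph (Fin v)) (p : ℝ) : Prop :=
  3 ≤ v ∧ 0 < p ∧ p < 1 ∧
    ∀ (k : ℕ) (H : SimpleGraph (Fin k)),
      (((k = 3 ∨ k = 4) ∧ (∀ w : Fin k, ∃ u : Fin k, H.Adj w u)) ∨
        (k = 5 ∧ H.Connected)) → Sm F p k H = 0

theorem exceptional_sums (h : Exceptional F p) :
    Sm F p 3 P3 = 0 ∧ Sm F p 4 M2 = 0 ∧ Sm F p 3 ⊤ = 0 := by
  obtain ⟨-, -, -, h⟩ := h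
  refine ⟨h 3 P3 (Or.inl ⟨Or.inl rfl, ?_⟩), h 4 M2 (Or.inl ⟨Or.inr rfl, ?_⟩),
    h 3 ⊤ (Or.inl ⟨Or.inl rfl, ?_⟩)⟩
  · intro w
    fin_cases w
    · exact ⟨1, Or.inr ⟨rfl, by decide⟩⟩
    · exact ⟨0, Or.inl ⟨rfl, by decide⟩⟩
    · exact ⟨1, Or.inr ⟨rfl, by decide⟩⟩
  · intro w
    fin_cases w
    · exact ⟨1, Or.inl ⟨rfl, rfl⟩⟩
    · exact ⟨0, Or.inr (Or.inl ⟨rfl, rfl⟩)⟩
    · exact ⟨3, Or.inr (Or.inr (Or.inl ⟨rfl, rfl⟩))⟩
    · exact ⟨2, Or.inr (Or.inr (Or.inr ⟨rfl, rfl⟩))⟩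
  · intro w
    fin_cases w
    · exact ⟨1, by simp⟩
    · exact ⟨0, by simp⟩
    · exact ⟨0, by simp⟩

end Pool.Agent.E8helper57.JN
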