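import Pool.Agent.E8helper57.JN.Emb

/-!
# Centred subgraph statistics: the equations for the number of edges, cherries and triangles
-/

set_option autoImplicit false
set_option linter.unusedSimpArgs false

open Finset Classical

namespace Pool.Agent.E8helper57.JN

variable {v : ℕ} (F : SimpleGraph (Fin v)) (p : ℝ)

lemma P3_eq : Sm F p 3 P3 = ∑ b, (∑ a, Y F p a b) ^ 2 - ∑ a, ∑ b, Y F p a b ^ 2 := by
  rw [Sm_P3, sum_emb3 (fun a b c => Y F p a b * Y F p b c)]
  have e : ∀ a b c : Fin v, (if a ≠ b ∧ a ≠ c ∧ b ≠ c then Y F p a b * Y F p b c else 0) =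
      Y F p a b * Y F p b c - dl a c * (Y F p a b * Y F p b c) := by
    intro a b c
    by_cases h1 : a = b
    · subst h1
      simp [Y_self]
    · by_cases h2 : b = c
      · subst h2
        simp [Y_self]
      · by_cases h3 : a = c
        · subst h3
          simp [dl]
        · simp [h1, h2, h3, dl]
  simp only [e, sum_sub_distrib]
  congr 1
  · rw [sum_comm]
    refine sum_congr rfl fun b _ => ?_
    rw [sq, sum_mul_sum]
    refine sum_congr rfl fun a _ => sum_congr rfl fun c _ => ?_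
    rw [Y_symm F p b c]
  · refine sum_congr rfl fun a _ => sum_congr rfl fun b _ => ?_
    rw [sum_dl a (fun c => Y F p a b * Y F p b c), Y_symm F p b a, sq]

lemma K3_eq : Sm F p 3 ⊤ = ∑ a, ∑ b, ∑ c, Y F p a b * Y F p b c * Y F p a c := by
  rw [Sm_K3, sum_emb3 (fun a b c => Y F p a b * Y F p b c * Y F p a c)]
  refine sum_congr rfl fun a _ => sum_congr rfl fun b _ => sum_congr rfl fun c _ => ?_
  by_cases h1 : a = b
  · subst h1
    simp [Y_self]
  · by_cases h2 : b = c
    · subst h2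
      simp [Y_self]
    · by_cases h3 : a = c
      · subst h3
        simp [Y_self]
      · simp [h1, h2, h3]

lemma row (a : Fin v) : ∑ c, Y F p c a = ∑ b, Y F p a b :=
  sum_congr rfl fun c _ => Y_symm F p c a

lemma inner (a b : Fin v) : ∑ c, ∑ d, Y F p c d * (1 - dl a c - dl a d - dl b c - dl b d +
    dl a c * dl b d + dl a d * dl b c) =
    (∑ c, ∑ d, Y F p c d) - 2 * (∑ d, Y F p a d) - 2 * (∑ d, Y F p b d) + 2 * Y F p a b := by
  have e : ∀ c d, Y F p c d * (1 - dl a c - dl a d - dl b c - dl b d +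
      dl a c * dl b d + dl a d * dl b c) =
      Y F p c d - dl a c * Y F p c d - dl a d * Y F p c d - dl b c * Y F p c d -
        dl b d * Y F p c d + dl a c * (dl b d * Y F p c d) + dl a d * (dl b c * Y F p c d) :=
    fun c d => by ring
  have s1 : ∀ a : Fin v, ∑ c, ∑ d, dl a c * Y F p c d = ∑ d, Y F p a d := by
    intro a
    simp only [← mul_sum]
    exact sum_dl a (fun c => ∑ d, Y F p c d)
  have s2 : ∀ a : Fin v, ∑ c, ∑ d, dl a d * Y F p c d = ∑ d, Y F p a d := by
    intro a
    rw [← row F p a]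
    exact sum_congr rfl fun c _ => sum_dl a (fun d => Y F p c d)
  have s3 : ∑ c, ∑ d, dl a c * (dl b d * Y F p c d) = Y F p a b := by
    simp only [← mul_sum]
    rw [sum_dl a (fun c => ∑ d, dl b d * Y F p c d), sum_dl b (fun d => Y F p a d)]
  have s4 : ∑ c, ∑ d, dl a d * (dl b c * Y F p c d) = Y F p a b := by
    have : ∀ c, ∑ d, dl a d * (dl b c * Y F p c d) = dl b c * Y F p c a := fun c =>
      sum_dl a (fun d => dl b c * Y F p c d)
    simp only [this]
    rw [sum_dl b (fun c => Y F p c a), Y_symm]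
  simp only [e, sum_add_distrib, sum_sub_distrib]
  rw [s1, s2, s1, s2, s3, s4]
  ring

lemma M2_eq : Sm F p 4 M2 = (∑ a, ∑ b, Y F p a b) ^ 2 - 4 * ∑ b, (∑ a, Y F p a b) ^ 2 +
    2 * ∑ a, ∑ b, Y F p a b ^ 2 := by
  rw [Sm_M2, sum_emb4 (fun a b c d => Y F p a b * Y F p c d)]
  have e : ∀ a b c d : Fin v, (if a ≠ b ∧ a ≠ c ∧ a ≠ d ∧ b ≠ c ∧ b ≠ d ∧ c ≠ d then
      Y F p a b * Y F p c d else 0) = Y F p a b * (Y F p c d *
        (1 - dl a c - dl a d - dl b c - dl b d + dl a c * dl b d + dl a d * dl b c)) := by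
    intro a b c d
    by_cases h1 : a = b
    · subst h1
      simp [Y_self]
    · by_cases h2 : c = d
      · subst h2
        simp [Y_self]
      · have h1' : ¬ b = a := fun h => h1 h.symm
        have h2' : ¬ d = c := fun h => h2 h.symm
        by_cases h3 : a = c
        · subst h3
          by_cases h4 : b = d
          · subst h4
            simp [dl, h1, h1']
          · simp [dl, h1, h1', h2, h2', h4]
        · by_cases h4 : b = d
          · subst h4
            by_cases h5 : b = c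
            · exact absurd h5.symm h2
            · simp [dl, h1, h1', h2, h2', h3, h5]
          · by_cases h5 : a = d
            · subst h5
              by_cases h6 : b = c
              · subst h6
                simp [dl, h1, h1']
              · simp [dl, h1, h1', h2, h2', h3, h6]
            · by_cases h6 : b = c
              · subst h6
                simp [dl, h1, h1', h2, h2', h5]
              · simp [dl, h1, h2, h3, h4, h5, h6]
  simp only [e]
  have e2 : ∀ a b : Fin v, ∑ c, ∑ d, Y F p a b * (Y F p c d *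
        (1 - dl a c - dl a d - dl b c - dl b d + dl a c * dl b d + dl a d * dl b c)) =
      Y F p a b * (∑ c, ∑ d, Y F p c d) - 2 * (Y F p a b * (∑ d, Y F p a d)) -
        2 * (Y F p a b * (∑ d, Y F p b d)) + 2 * Y F p a b ^ 2 := by
    intro a b
    simp only [← mul_sum]
    rw [inner F p a b]
    ring
  rw [sum_congr rfl fun a _ => sum_congr rfl fun b _ => e2 a b]
  simp only [sum_add_distrib, sum_sub_distrib, ← mul_sum, ← sum_mul]
  have f1 : ∑ a, (∑ b, Y F p a b) * (∑ d, Y F p a d) = ∑ b, (∑ a, Y F p a b) ^ 2 :=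
    sum_congr rfl fun a _ => by rw [row, sq]
  have f2 : ∑ a, ∑ b, Y F p a b * (∑ d, Y F p b d) = ∑ b, (∑ a, Y F p a b) ^ 2 := by
    rw [sum_comm]
    refine sum_congr rfl fun b _ => ?_
    rw [← sum_mul, row, sq]
  rw [f1, f2]
  ring

/-- the algebra -/
theorem algebra {n E D T p : ℝ} (hn : 3 ≤ n) (hp0 : 0 < p) (hp1 : p < 1)
    (h1 : (D - 2 * p * (n - 1) * E + p ^ 2 * (n - 1) ^ 2 * n) -
      ((1 - 2 * p) * E + p ^ 2 * (n ^ 2 - n)) = 0)
    (h2 : (E - p * (n ^ 2 - n)) ^ 2 - 4 * (D - 2 * p * (n - 1) * E + p ^ 2 * (n - 1) ^ 2 * n) +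
      2 * ((1 - 2 * p) * E + p ^ 2 * (n ^ 2 - n)) = 0)
    (h3 : T - 3 * p * (D - E) + 3 * p ^ 2 * ((n - 2) * E) - p ^ 3 * ((n - 2) * (n ^ 2 - n)) = 0) :
    E ≠ 0 ∧ n ^ 2 - n - E ≠ 0 ∧
    p * (4 * E * (n ^ 2 - n - E)) = E ^ 2 * (E - 2) - T * (n ^ 2 - n) * (n + 1) ∧
    (n + 1) * (D - E) = E * (E - 2) ∧
    ((n ^ 2 - n - 2) * ((n ^ 2 - n) * p - E)) ^ 2 = 2 * E * (n ^ 2 - n - E) * (n ^ 2 - n - 2) := by
  obtain ⟨M, hM⟩ : ∃ M, M = n ^ 2 - n := ⟨_, rfl⟩
  have hM6 : 6 ≤ M := by rw [hM]; nlinarith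
  have hM2 : M - 2 = (n - 2) * (n + 1) := by rw [hM]; ring
  have c : M * (M - 2) * p ^ 2 - 2 * E * (M - 2) * p + E * (E - 2) = 0 := by
    rw [hM]
    linear_combination h2 + 4 * h1
  have hD : D - E = (n - 2) * (2 * p * E - p ^ 2 * M) := by
    rw [hM]
    linear_combination h1
  have hT : T = (n - 2) * (3 * p ^ 2 * E - 2 * p ^ 3 * M) := by
    rw [← hM] at h3
    linear_combination h3 + 3 * p * hD
  rw [← hM]
  refine ⟨?_, ?_, ?_, ?_, ?_⟩
  · intro h0
    rw [h0] at c
    have : M * (M - 2) * p ^ 2 = 0 := by linarith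
    have h4 : 0 < M * (M - 2) * p ^ 2 := by
      have : 0 < M - 2 := by linarith
      positivity
    linarith
  · intro h0
    have hE : E = M := by linarith
    rw [hE] at c
    have h4 : M * (M - 2) * (1 - p) ^ 2 = 0 := by linear_combination c
    have h5 : 0 < M * (M - 2) * (1 - p) ^ 2 := by
      have h6 : 0 < M - 2 := by linarith
      have h7 : 0 < 1 - p := by linarith
      positivity
    linarith
  · rw [hT]
    linear_combination -(E + 2 * M * p) * c - (3 * p ^ 2 * E - 2 * p ^ 3 * M) * M * hM2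
  · rw [hD]
    linear_combination (p ^ 2 * M - 2 * p * E) * hM2 - c
  · linear_combination M * (M - 2) * c

end Pool.Agent.E8helper57.JN
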