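import Mathlib

/-!
# Centred subgraph statistics: sums over vertices
-/

set_option autoImplicit false

open Finset Classical

namespace Pool.Agent.E8helper57.JN

variable {v : ℕ}

noncomputable section

/-- the adjacency indicator -/
def X (F : SimpleGraph (Fin v)) (a b : Fin v) : ℝ := if F.Adj a b then 1 else 0

/-- `1` if `a = b` -/
def dl (a b : Fin v) : ℝ := if a = b then 1 else 0

/-- the centred indicator, zero on the diagonal -/
def Y (F : SimpleGraph (Fin v)) (p : ℝ) (a b : Fin v) : ℝ := if a = b then 0 else X F a b - p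

variable (F : SimpleGraph (Fin v)) (p : ℝ)

lemma X_symm (a b : Fin v) : X F a b = X F b a := by
  unfold X
  rw [F.adj_comm]

lemma X_self (a : Fin v) : X F a a = 0 := by simp [X]

lemma X_sq (a b : Fin v) : X F a b * X F a b = X F a b := by
  unfold X
  split_ifs <;> norm_num

lemma dl_symm (a b : Fin v) : dl a b = dl b a := by
  unfold dl
  simp only [eq_comm]

lemma dl_X (a b : Fin v) : dl a b * X F a b = 0 := by
  unfold dl
  split_ifs with h
  · rw [h, X_self, mul_zero]
  · rw [zero_mul]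

lemma dl_sq (a b : Fin v) : dl a b * dl a b = dl a b := by
  unfold dl
  split_ifs <;> norm_num

lemma Y_eq (a b : Fin v) : Y F p a b = X F a b - p * (1 - dl a b) := by
  unfold Y dl
  split_ifs with h
  · rw [h, X_self]
    ring
  · ring

lemma Y_symm (a b : Fin v) : Y F p a b = Y F p b a := by
  rw [Y_eq, Y_eq, X_symm, dl_symm]

lemma Y_self (a : Fin v) : Y F p a a = 0 := by simp [Y]

lemma sum_dl (a : Fin v) (g : Fin v → ℝ) : ∑ b, dl a b * g b = g a := by
  unfold dl
  simp

lemma sum_dl' (a : Fin v) (g : Fin v → ℝ) : ∑ b, dl b a * g b = g a := by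
  simp only [dl_symm _ a]
  exact sum_dl a g

lemma sum_dl1 (a : Fin v) : ∑ b, dl a b = 1 := by
  unfold dl
  simp

/-- twice the number of edges -/
def E2 : ℝ := ∑ a, ∑ b, X F a b

/-- the sum of the squares of the degrees -/
def D2 : ℝ := ∑ b, (∑ a, X F a b) ^ 2

/-- six times the number of triangles -/
def T6 : ℝ := ∑ a, ∑ b, ∑ c, X F a b * X F b c * X F a c

lemma sum_Y : ∑ a, ∑ b, Y F p a b = E2 F - p * (v ^ 2 - v) := by
  simp only [Y_eq, sum_sub_distrib, ← mul_sum, sum_dl1, sum_const, card_univ, Fintype.card_fin,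
    nsmul_eq_mul, mul_one]
  unfold E2
  ring

lemma sum_Y2 : ∑ a, ∑ b, Y F p a b ^ 2 = (1 - 2 * p) * E2 F + p ^ 2 * (v ^ 2 - v) := by
  have e : ∀ a b, Y F p a b ^ 2 = (1 - 2 * p) * X F a b + p ^ 2 * (1 - dl a b) := by
    intro a b
    rw [Y_eq]
    linear_combination X_sq F a b + 2 * p * dl_X F a b + p ^ 2 * dl_sq a b
  simp only [e, sum_add_distrib, sum_sub_distrib, ← mul_sum, sum_dl1, sum_const, card_univ,
    Fintype.card_fin, nsmul_eq_mul, mul_one]
  unfold E2
  ring

lemma sum_R : ∑ b, (∑ a, Y F p a b) ^ 2 =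
    D2 F - 2 * p * (v - 1) * E2 F + p ^ 2 * (v - 1) ^ 2 * v := by
  have e : ∀ b, ∑ a, Y F p a b = (∑ a, X F a b) - p * (v - 1) := by
    intro b
    have : ∑ a, dl a b = (1 : ℝ) := by
      simp only [dl_symm _ b]
      exact sum_dl1 b
    simp only [Y_eq, sum_sub_distrib, ← mul_sum, this, sum_const, card_univ, Fintype.card_fin,
      nsmul_eq_mul, mul_one]
  have hE : ∑ b, ∑ a, X F a b = E2 F := sum_comm
  simp only [e, sub_sq, sum_add_distrib, sum_sub_distrib, sum_const, card_univ, Fintype.card_fin,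
    nsmul_eq_mul]
  have e2 : ∑ b, 2 * (∑ a, X F a b) * (p * ((v : ℝ) - 1)) = 2 * (p * (v - 1)) * E2 F := by
    rw [← hE, mul_sum]
    exact sum_congr rfl fun b _ => by ring
  rw [e2]
  unfold D2
  ring

/-- `Σ X_ab X_bc (1 - δ_ac)` -/
lemma sum_cherry : ∑ a, ∑ b, ∑ c, X F a b * X F b c * (1 - dl a c) = D2 F - E2 F := by
  have e1 : ∑ a, ∑ b, ∑ c, X F a b * X F b c = D2 F := by
    rw [sum_comm]
    unfold D2
    refine sum_congr rfl fun b _ => ?_
    rw [sq, sum_mul_sum]
    refine sum_congr rfl fun a _ => sum_congr rfl fun c _ => ?_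
    rw [X_symm F b c]
  have e2 : ∑ a, ∑ b, ∑ c, dl a c * (X F a b * X F b c) = E2 F := by
    unfold E2
    refine sum_congr rfl fun a _ => sum_congr rfl fun b _ => ?_
    rw [sum_dl a (fun c => X F a b * X F b c), X_symm F b a, X_sq]
  have e3 : ∀ a b c, X F a b * X F b c * (1 - dl a c) =
      X F a b * X F b c - dl a c * (X F a b * X F b c) := fun a b c => by ring
  simp only [e3, sum_sub_distrib]
  rw [e1, e2]

lemma sum_dd (a b : Fin v) : ∑ c, (1 - dl b c) * (1 - dl a c) = v - 2 + dl a b := by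
  have e : ∀ c, (1 - dl b c) * (1 - dl a c) = 1 - dl b c - dl a c + dl a c * dl b c :=
    fun c => by ring
  simp only [e, sum_add_distrib, sum_sub_distrib, sum_dl1, sum_dl a (fun c => dl b c), sum_const,
    card_univ, Fintype.card_fin, nsmul_eq_mul, mul_one]
  rw [dl_symm b a]
  ring

/-- `Σ X_ab (1 - δ_bc) (1 - δ_ac)` -/
lemma sum_edge : ∑ a, ∑ b, ∑ c, X F a b * ((1 - dl b c) * (1 - dl a c)) = (v - 2) * E2 F := by
  unfold E2
  rw [mul_sum]
  refine sum_congr rfl fun a _ => ?_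
  rw [mul_sum]
  refine sum_congr rfl fun b _ => ?_
  rw [← mul_sum, sum_dd]
  linear_combination dl_X F a b

lemma sum_none : ∑ a : Fin v, ∑ b : Fin v, ∑ c : Fin v, (1 - dl a b) *
    ((1 - dl b c) * (1 - dl a c)) = (v - 2) * ((v : ℝ) ^ 2 - v) := by
  have e : ∀ a b : Fin v, ∑ c, (1 - dl a b) * ((1 - dl b c) * (1 - dl a c)) =
      (v - 2) * (1 - dl a b) := by
    intro a b
    rw [← mul_sum, sum_dd]
    linear_combination -dl_sq a b
  simp only [e, ← mul_sum, sum_sub_distrib, sum_dl1, sum_const, card_univ, Fintype.card_fin,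
    nsmul_eq_mul, mul_one]
  ring

lemma sum_T : ∑ a, ∑ b, ∑ c, Y F p a b * Y F p b c * Y F p a c =
    T6 F - 3 * p * (D2 F - E2 F) + 3 * p ^ 2 * ((v - 2) * E2 F) -
      p ^ 3 * ((v - 2) * ((v : ℝ) ^ 2 - v)) := by
  have e : ∀ a b c, Y F p a b * Y F p b c * Y F p a c =
      X F a b * X F b c * X F a c
      - p * (X F a b * X F b c * (1 - dl a c)) - p * (X F b a * X F a c * (1 - dl b c))
      - p * (X F a c * X F c b * (1 - dl a b))
      + p ^ 2 * (X F a b * ((1 - dl b c) * (1 - dl a c)))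
      + p ^ 2 * (X F b c * ((1 - dl c a) * (1 - dl b a)))
      + p ^ 2 * (X F a c * ((1 - dl c b) * (1 - dl a b)))
      - p ^ 3 * ((1 - dl a b) * ((1 - dl b c) * (1 - dl a c))) := by
    intro a b c
    rw [Y_eq, Y_eq, Y_eq, X_symm F b a, X_symm F c b, dl_symm c a, dl_symm b a, dl_symm c b]
    ring
  simp only [e, sum_add_distrib, sum_sub_distrib, ← mul_sum]
  have c2 : ∑ a, ∑ b, ∑ c, X F b a * X F a c * (1 - dl b c) = D2 F - E2 F := by
    rw [sum_comm]
    exact sum_cherry F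
  have c3 : ∑ a, ∑ b, ∑ c, X F a c * X F c b * (1 - dl a b) = D2 F - E2 F := by
    rw [← sum_cherry F]
    exact sum_congr rfl fun a _ => sum_comm
  have d2 : ∑ a, ∑ b, ∑ c, X F b c * ((1 - dl c a) * (1 - dl b a)) = (v - 2) * E2 F := by
    rw [← sum_edge F, sum_comm]
    refine sum_congr rfl fun b _ => ?_
    rw [sum_comm]
  have d3 : ∑ a, ∑ b, ∑ c, X F a c * ((1 - dl c b) * (1 - dl a b)) = (v - 2) * E2 F := by
    rw [← sum_edge F]
    exact sum_congr rfl fun a _ => sum_comm
  have s1 := sum_edge F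
  have s2 := sum_none (v := v)
  simp only [← mul_sum] at s1 s2
  rw [sum_cherry, c2, c3, s1, d2, d3, s2]
  unfold T6
  ring

end

end Pool.Agent.E8helper57.JN
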